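import Pool.Agent.helper64.PB.SpecL

set_option autoImplicit false

namespace Pool.Agent.PB

theorem NPS_mono {n : ℕ} {f : BF n} {s t : ℕ} (h : Size std f s) (hst : s ≤ t) : Size std f t := by
  obtain ⟨l, h1, h2, h3⟩ := h
  exact ⟨l, h1, h2.trans hst, h3⟩

theorem NPS_var {n : ℕ} (j : Fin n) : Size std (fun z : Fin n → Bool => z j) 0 :=
  ⟨[], Prog.nil, le_refl _, Or.inr ⟨j, rfl⟩⟩

/-- the constant `false` -/
theorem NPS_const (n : ℕ) : Size std (fun _ : Fin n → Bool => false) 1 := by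
  refine ⟨[fun _ => false], ?_, le_refl _, Or.inl (by simp)⟩
  exact Prog.step [] (gConst false) (fun i => i.elim0) Prog.nil (by simp [std]) (fun i => i.elim0)

/-- coordinates -/
def NPS_x (n w : ℕ) (i : Fin n) : Fin (n + 2 + w) := Fin.castAdd w (Fin.castAdd 2 i)
def NPS_a (n w : ℕ) : Fin (n + 2 + w) := Fin.castAdd w (Fin.natAdd n 0)
def NPS_b (n w : ℕ) : Fin (n + 2 + w) := Fin.castAdd w (Fin.natAdd n 1)
def NPS_y1 (n w1 w2 : ℕ) (j : Fin w1) : Fin (n + 2 + (w1 + w2)) := Fin.natAdd (n + 2) (Fin.castAdd w2 j)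
def NPS_y2 (n w1 w2 : ℕ) (j : Fin w2) : Fin (n + 2 + (w1 + w2)) := Fin.natAdd (n + 2) (Fin.natAdd w1 j)

def NPS_p1 (n w1 w2 : ℕ) : Fin (n + w1) → BF (n + 2 + (w1 + w2)) :=
  Fin.append (fun i z => z (NPS_x n (w1 + w2) i)) (fun j z => z (NPS_y1 n w1 w2 j))

def NPS_p2 (n w1 w2 : ℕ) : Fin (n + w2) → BF (n + 2 + (w1 + w2)) :=
  Fin.append (fun i z => !(z (NPS_x n (w1 + w2) i))) (fun j z => z (NPS_y2 n w1 w2 j))

theorem NPS_e1 (n w1 w2 : ℕ) (u : Fin (n + 2) → Bool) (y : Fin (w1 + w2) → Bool) :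
    (fun i => NPS_p1 n w1 w2 i (Fin.append u y)) =
      Fin.append (fun i => u (Fin.castAdd 2 i)) (fun j => y (Fin.castAdd w2 j)) := by
  funext i
  refine Fin.addCases (fun i => ?_) (fun i => ?_) i
  · simp only [NPS_p1, NPS_x, Fin.append_left]
  · simp only [NPS_p1, NPS_y1, Fin.append_right]

theorem NPS_e2 (n w1 w2 : ℕ) (u : Fin (n + 2) → Bool) (y : Fin (w1 + w2) → Bool) :
    (fun i => NPS_p2 n w1 w2 i (Fin.append u y)) =
      Fin.append (fun i => !(u (Fin.castAdd 2 i))) (fun j => y (Fin.natAdd w1 j)) := by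
  funext i
  refine Fin.addCases (fun i => ?_) (fun i => ?_) i
  · simp only [NPS_p2, NPS_x, Fin.append_left]
  · simp only [NPS_p2, NPS_y2, Fin.append_right]

def NPS_F (n w1 w2 : ℕ) (f1 : BF (n + w1)) (f2 : BF (n + w2)) : BF (n + 2 + (w1 + w2)) := fun z =>
  ((z (NPS_a n (w1 + w2)) && z (NPS_b n (w1 + w2))) ||
   ((z (NPS_a n (w1 + w2)) && !(z (NPS_b n (w1 + w2)))) && f1 fun i => NPS_p1 n w1 w2 i z)) ||
   ((!(z (NPS_a n (w1 + w2))) && z (NPS_b n (w1 + w2))) && f2 fun i => NPS_p2 n w1 w2 i z)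

theorem NPS_size (hREN : REN_stmt) (hBIN : BIN_stmt) (n w1 w2 : ℕ) (f1 : BF (n + w1)) (f2 : BF (n + w2))
    (s1 s2 : ℕ) (h1 : Size std f1 s1) (h2 : Size std f2 s2) :
    Size std (NPS_F n w1 w2 f1 f2) (s1 + s2 + 2 * (n + 2 + (w1 + w2) + 2) + 9) := by
  have hr1 : Size std (fun z => f1 fun i => NPS_p1 n w1 w2 i z) (s1 + (n + 2 + (w1 + w2)) + 2) := by
    refine hREN _ _ f1 s1 (NPS_p1 n w1 w2) (fun i => ?_) h1
    refine Fin.addCases (fun i => ?_) (fun i => ?_) i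
    · exact Or.inl ⟨NPS_x n (w1 + w2) i, by simp only [NPS_p1, Fin.append_left]⟩
    · exact Or.inl ⟨NPS_y1 n w1 w2 i, by simp only [NPS_p1, Fin.append_right]⟩
  have hr2 : Size std (fun z => f2 fun i => NPS_p2 n w1 w2 i z) (s2 + (n + 2 + (w1 + w2)) + 2) := by
    refine hREN _ _ f2 s2 (NPS_p2 n w1 w2) (fun i => ?_) h2
    refine Fin.addCases (fun i => ?_) (fun i => ?_) i
    · exact Or.inr (Or.inl ⟨NPS_x n (w1 + w2) i, by simp only [NPS_p2, Fin.append_left]⟩)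
    · exact Or.inl ⟨NPS_y2 n w1 w2 i, by simp only [NPS_p2, Fin.append_right]⟩
  have ha := NPS_var (NPS_a n (w1 + w2))
  have hb := NPS_var (NPS_b n (w1 + w2))
  have hB := hBIN.1
  have k1 := (hB _ _ _ _ _ ha hb).1
  have nb := (hB _ _ _ _ _ hb hb).2.2
  have na := (hB _ _ _ _ _ ha ha).2.2
  have k2 := (hB _ _ _ _ _ ha nb).1
  have k3 := (hB _ _ _ _ _ k2 hr1).1
  have k4 := (hB _ _ _ _ _ k1 k3).2.1
  have k5 := (hB _ _ _ _ _ na hb).1
  have k6 := (hB _ _ _ _ _ k5 hr2).1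
  have k7 := (hB _ _ _ _ _ k4 k6).2.1
  exact NPS_mono k7 (by omega)

theorem NPS_iff (n w1 w2 : ℕ) (A : Lang) (f1 : BF (n + w1)) (f2 : BF (n + w2))
    (h1 : ∀ x : Fin n → Bool, A n x = true ↔ ∃ y : Fin w1 → Bool, f1 (Fin.append x y) = true)
    (h2 : ∀ x : Fin n → Bool, compl A n x = true ↔ ∃ y : Fin w2 → Bool, f2 (Fin.append x y) = true)
    (u : Fin (n + 2) → Bool) :
    eS (A n) u = true ↔ ∃ y : Fin (w1 + w2) → Bool, NPS_F n w1 w2 f1 f2 (Fin.append u y) = true := by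
  have hF : ∀ y : Fin (w1 + w2) → Bool, NPS_F n w1 w2 f1 f2 (Fin.append u y) =
      (((u (Fin.natAdd n 0) && u (Fin.natAdd n 1)) ||
       ((u (Fin.natAdd n 0) && !(u (Fin.natAdd n 1))) &&
         f1 (Fin.append (fun i => u (Fin.castAdd 2 i)) (fun j => y (Fin.castAdd w2 j))))) ||
       ((!(u (Fin.natAdd n 0)) && u (Fin.natAdd n 1)) &&
         f2 (Fin.append (fun i => !(u (Fin.castAdd 2 i))) (fun j => y (Fin.natAdd w1 j))))) := by
    intro y
    simp only [NPS_F, NPS_e1, NPS_e2, NPS_a, NPS_b, Fin.append_left]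
  have hx := h1 (fun i => u (Fin.castAdd 2 i))
  have hx2 := h2 (fun i => !(u (Fin.castAdd 2 i)))
  simp only [hF, eS]
  cases ha : u (Fin.natAdd n 0) <;> cases hb : u (Fin.natAdd n 1)
  · simp
  · simp only [Bool.false_and, Bool.not_false, Bool.true_and, Bool.false_or]
    rw [show (!(A n fun i => !(u (Fin.castAdd 2 i)))) = compl A n (fun i => !(u (Fin.castAdd 2 i))) from rfl, hx2]
    constructor
    · rintro ⟨y, hy⟩
      refine ⟨Fin.append (fun _ => false) y, ?_⟩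
      simpa only [Fin.append_right] using hy
    · rintro ⟨y, hy⟩
      exact ⟨_, hy⟩
  · simp only [Bool.and_false, Bool.not_false, Bool.true_and, Bool.false_or, Bool.not_true, Bool.false_and,
      Bool.or_false, Bool.and_self]
    rw [hx]
    constructor
    · rintro ⟨y, hy⟩
      refine ⟨Fin.append y (fun _ => false), ?_⟩
      simpa only [Fin.append_left] using hy
    · rintro ⟨y, hy⟩
      exact ⟨_, hy⟩
  · simp

/-- NPS -/
theorem NPS (hREN : REN_stmt) (hBIN : BIN_stmt) (hPOL : POL_stmt) : NPS_stmt := by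
  intro A hA hB
  obtain ⟨c1, hc1⟩ := hA
  obtain ⟨c2, hc2⟩ := hB
  obtain ⟨d, hd⟩ := hPOL 12 (c1 + c2)
  refine ⟨d + 1, fun N => ?_⟩
  match N with
  | 0 =>
    refine ⟨0, Nat.zero_le _, fun _ => false, NPS_mono (NPS_const _) (by omega), fun x => ?_⟩
    simp [ext]
  | 1 =>
    refine ⟨0, Nat.zero_le _, fun z => z (Fin.castAdd 0 0), NPS_mono (NPS_var _) (Nat.zero_le _), fun x => ?_⟩
    simp only [Fin.append_left]
    exact ⟨fun h => ⟨fun _ => false, h⟩, fun ⟨_, h⟩ => h⟩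
  | n + 2 =>
    obtain ⟨w1, hw1, f1, hf1, h1⟩ := hc1 n
    obtain ⟨w2, hw2, f2, hf2, h2⟩ := hc2 n
    have hdn := hd n
    have p1 : n ^ c1 ≤ (n + 2) ^ (c1 + c2) :=
      (Nat.pow_le_pow_left (by omega) _).trans (Nat.pow_le_pow_right (by omega) (by omega))
    have p2 : n ^ c2 ≤ (n + 2) ^ (c1 + c2) :=
      (Nat.pow_le_pow_left (by omega) _).trans (Nat.pow_le_pow_right (by omega) (by omega))
    have p3 : n ^ d ≤ (n + 2) ^ (d + 1) :=
      (Nat.pow_le_pow_left (by omega) _).trans (Nat.pow_le_pow_right (by omega) (by omega))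
    generalize hP : (n + 2) ^ (c1 + c2) = P at *
    generalize hQ : (n + 2) ^ (d + 1) = Q at *
    refine ⟨w1 + w2, by omega, NPS_F n w1 w2 f1 f2,
      NPS_mono (NPS_size hREN hBIN n w1 w2 f1 f2 _ _ hf1 hf2) (by omega), fun u => ?_⟩
    exact NPS_iff n w1 w2 A f1 f2 h1 h2 u

end Pool.Agent.PB
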